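import Pool.Agent.Lib.MP_af3a4a_an.P1.CHK.DATA.N10.K0
import Pool.Agent.Lib.MP_af3a4a_an.P1.CHK.DATA.N10.K1
import Pool.Agent.Lib.MP_af3a4a_an.P1.CHK.DATA.N10.K2

/-! glue for 10 <= N <= 10 (generated) -/

set_option autoImplicit false
set_option maxRecDepth 100000

namespace Pool.Agent.Lib.MP_af3a4a_an.P1.CHK.DATA.N10

open BOX

theorem g0 : ChunkP 10 10 0 1024 0 101 0 2484 := ChunkP.r k0 k1
theorem g1 : ChunkP 10 10 1024 1536 0 64 0 2484 := ChunkP.g k2 k3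
theorem g2 : ChunkP 10 10 1024 1536 64 80 0 2484 := ChunkP.R k4 k5
theorem g3 : ChunkP 10 10 1024 1536 64 96 0 2484 := ChunkP.g g2 k6
theorem g4 : ChunkP 10 10 1024 1536 64 101 0 2484 := ChunkP.g g3 k7
theorem g5 : ChunkP 10 10 1024 1536 0 101 0 2484 := ChunkP.g g1 g4
theorem g6 : ChunkP 10 10 1536 2048 48 64 0 2484 := ChunkP.R k10 k11
theorem g7 : ChunkP 10 10 1536 2048 32 64 0 2484 := ChunkP.g k9 g6
theorem g8 : ChunkP 10 10 1536 2048 0 64 0 2484 := ChunkP.g k8 g7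
theorem g9 : ChunkP 10 10 1536 1792 64 72 1872 2484 := ChunkP.R k22 k23
theorem g10 : ChunkP 10 10 1536 1792 64 72 1824 2484 := ChunkP.R k21 g9
theorem g11 : ChunkP 10 10 1536 1792 64 72 1680 2484 := ChunkP.R k20 g10
theorem g12 : ChunkP 10 10 1536 1792 64 80 1680 2484 := ChunkP.g g11 k24
theorem g13 : ChunkP 10 10 1536 1792 64 80 1632 2484 := ChunkP.R k19 g12
theorem g14 : ChunkP 10 10 1536 1792 64 80 1584 2484 := ChunkP.R k18 g13
theorem g15 : ChunkP 10 10 1536 1792 64 80 1440 2484 := ChunkP.R k17 g14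
theorem g16 : ChunkP 10 10 1536 1792 64 80 1200 2484 := ChunkP.R k16 g15
theorem g17 : ChunkP 10 10 1536 2048 64 80 1200 2484 := ChunkP.r g16 k25
theorem g18 : ChunkP 10 10 1536 2048 64 80 1152 2484 := ChunkP.R k15 g17
theorem g19 : ChunkP 10 10 1536 2048 64 80 1104 2484 := ChunkP.R k14 g18
theorem g20 : ChunkP 10 10 1536 2048 64 80 960 2484 := ChunkP.R k13 g19
theorem g21 : ChunkP 10 10 1536 2048 64 80 0 2484 := ChunkP.R k12 g20
theorem g22 : ChunkP 10 10 1536 2048 64 96 0 2484 := ChunkP.g g21 k26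
theorem g23 : ChunkP 10 10 1536 2048 64 101 0 2484 := ChunkP.g g22 k27
theorem g24 : ChunkP 10 10 1536 2048 0 101 0 2484 := ChunkP.g g8 g23
theorem g25 : ChunkP 10 10 1024 2048 0 101 0 2484 := ChunkP.r g5 g24
theorem g26 : ChunkP 10 10 0 2048 0 101 0 2484 := ChunkP.r g0 g25
theorem g27 : ChunkP 10 10 2048 2560 32 64 0 2484 := ChunkP.g k29 k30
theorem g28 : ChunkP 10 10 2048 2560 0 64 0 2484 := ChunkP.g k28 g27
theorem g29 : ChunkP 10 10 2048 2560 0 101 0 2484 := ChunkP.g g28 k31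
theorem g30 : ChunkP 10 10 2560 3072 0 101 0 2484 := ChunkP.g k32 k33
theorem g31 : ChunkP 10 10 2048 3072 0 101 0 2484 := ChunkP.r g29 g30
theorem g32 : ChunkP 10 10 3072 3584 0 101 0 2484 := ChunkP.g k34 k35
theorem g33 : ChunkP 10 10 3072 4096 0 101 0 2484 := ChunkP.r g32 k36
theorem g34 : ChunkP 10 10 2048 4096 0 101 0 2484 := ChunkP.r g31 g33
theorem g35 : ChunkP 10 10 0 4096 0 101 0 2484 := ChunkP.r g26 g34

/-- the whole box -/
theorem allBox : ChunkP 10 10 0 4096 0 101 0 2484 := g35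

theorem full {N : ℕ} (hNa : 10 ≤ N) (hNb : N ≤ 10) {z w : Fin N → ℂ} {R : ℝ} {σ : Fin N → ℂ}
    (hC : Pool.Agent.Lib.MP_af3a4a_an.P1.H80.Cfg2 N z w R σ) : ((2484 : ℕ) : ℝ) / 1024 < R := ChunkP.full allBox hNa hNb hC

end Pool.Agent.Lib.MP_af3a4a_an.P1.CHK.DATA.N10
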